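import Mathlib
import Pool.Agent.Lib.helper7.Fill

namespace Pool.Agent.Results.MP_5f6599_gt.NeverParacompact

open Set Pool.Agent.Lib.Helper7Fill

universe u v

/-- `D` projects onto every countable subproduct. -/
def FillsCountable {I : Type u} {X : I → Type v} (D : Set (∀ i, X i)) : Prop :=
  ∀ J : Set I, J.Nonempty → J.Countable → ∀ y : ∀ i : J, X i, ∃ p ∈ D, ∀ i : J, p i = y i

theorem result {I : Type u} [Uncountable I] (X : I → Type v) [∀ i, TopologicalSpace (X i)]
    (hX : ∀ i, ¬ CompactSpace (X i)) (D : Set (∀ i, X i)) (hD : FillsCountable D) :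
    ¬ ParacompactSpace D := by
  intro hp
  obtain ⟨i0⟩ : Nonempty I := inferInstance
  have hF : Fill D := fun J hJ a => by
    obtain ⟨p, h1, h2⟩ := hD (insert i0 J) (insert_nonempty _ _) (hJ.insert _) fun i => a i
    exact ⟨p, h1, fun i hi => h2 ⟨i, Or.inr hi⟩⟩
  have ne : ∀ i, Nonempty (X i) := fun i => by
    by_contra h
    rw [not_nonempty_iff] at h
    exact hX i inferInstance
  by_cases h : ∀ i, ∃ x : ℕ → X i, ∀ y, ¬ MapClusterPt y Filter.atTop x
  · exact caseB hF h
  · push Not at h
    obtain ⟨i, hi⟩ := h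
    exact caseA hF (fun i => (ne i).some) i (hX i) hi

end Pool.Agent.Results.MP_5f6599_gt.NeverParacompact
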